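import Pool.Agent.Helper56.CP.Stmts

set_option autoImplicit false

open Finset Filter Topology

namespace Pool.Agent.Helper56.CP

noncomputable def bonT (x : ℕ → ℝ) (j : ℕ) (Q : Finset ℕ) : ℝ :=
  ∑ D ∈ Q.powerset, if D.card ≤ j then (-1) ^ D.card * ∏ l ∈ D, x l else 0

noncomputable def bonE (x : ℕ → ℝ) (j : ℕ) (Q : Finset ℕ) : ℝ :=
  ∑ D ∈ Q.powerset, if D.card = j then ∏ l ∈ D, x l else 0

theorem bonT_empty (x : ℕ → ℝ) (j : ℕ) : bonT x j ∅ = 1 := by
  simp [bonT]

theorem bonE_empty (x : ℕ → ℝ) (j : ℕ) : bonE x (j + 1) ∅ = 0 := by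
  simp [bonE]

theorem bonE_zero (x : ℕ → ℝ) (Q : Finset ℕ) : bonE x 0 Q = 1 := by
  unfold bonE
  rw [Finset.sum_eq_single ∅]
  · simp
  · intro D _ hD
    rw [if_neg]
    intro h
    exact hD (Finset.card_eq_zero.mp h)
  · intro h
    exact absurd (Finset.empty_mem_powerset Q) h

theorem bonT_zero (x : ℕ → ℝ) (Q : Finset ℕ) : bonT x 0 Q = 1 := by
  unfold bonT
  rw [Finset.sum_eq_single ∅]
  · simp
  · intro D _ hD
    rw [if_neg]
    intro h
    exact hD (Finset.card_eq_zero.mp (Nat.le_zero.mp h))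
  · intro h
    exact absurd (Finset.empty_mem_powerset Q) h

theorem bonT_insert (x : ℕ → ℝ) (j : ℕ) (a : ℕ) (Q : Finset ℕ) (ha : a ∉ Q) :
    bonT x (j + 1) (insert a Q) = bonT x (j + 1) Q - x a * bonT x j Q := by
  unfold bonT
  rw [Finset.sum_powerset_insert ha, sub_eq_add_neg]
  congr 1
  rw [Finset.mul_sum, ← Finset.sum_neg_distrib]
  apply Finset.sum_congr rfl
  intro D hD
  have haD : a ∉ D := fun h => ha (Finset.mem_powerset.mp hD h)
  rw [Finset.card_insert_of_notMem haD, Finset.prod_insert haD]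
  by_cases h : D.card ≤ j
  · rw [if_pos h, if_pos (by omega), pow_succ]
    ring
  · rw [if_neg h, if_neg (by omega)]
    ring

theorem bonE_insert (x : ℕ → ℝ) (j : ℕ) (a : ℕ) (Q : Finset ℕ) (ha : a ∉ Q) :
    bonE x (j + 1) (insert a Q) = bonE x (j + 1) Q + x a * bonE x j Q := by
  unfold bonE
  rw [Finset.sum_powerset_insert ha]
  congr 1
  rw [Finset.mul_sum]
  apply Finset.sum_congr rfl
  intro D hD
  have haD : a ∉ D := fun h => ha (Finset.mem_powerset.mp hD h)
  rw [Finset.card_insert_of_notMem haD, Finset.prod_insert haD]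
  by_cases h : D.card = j
  · rw [if_pos h, if_pos (by omega)]
  · rw [if_neg h, if_neg (by omega)]
    ring

theorem bonT_succ (x : ℕ → ℝ) (j : ℕ) (Q : Finset ℕ) :
    bonT x (j + 1) Q = bonT x j Q + (-1) ^ (j + 1) * bonE x (j + 1) Q := by
  unfold bonT bonE
  rw [Finset.mul_sum, ← Finset.sum_add_distrib]
  apply Finset.sum_congr rfl
  intro D _
  rcases lt_trichotomy D.card (j + 1) with h | h | h
  · rw [if_pos (by omega), if_pos (by omega), if_neg (by omega)]
    ring
  · rw [if_pos (by omega), if_neg (by omega), if_pos h, h]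
    ring
  · rw [if_neg (by omega), if_neg (by omega), if_neg (by omega)]
    ring

theorem bon_main (x : ℕ → ℝ) (Q : Finset ℕ) : (∀ l ∈ Q, 0 ≤ x l ∧ x l ≤ 1) →
    ∀ k : ℕ, ∏ l ∈ Q, (1 - x l) ≤ bonT x (2 * k) Q ∧ bonT x (2 * k + 1) Q ≤ ∏ l ∈ Q, (1 - x l) := by
  induction Q using Finset.induction_on with
  | empty =>
    intro _ k
    simp [bonT_empty]
  | insert a Q ha ih =>
    intro h k
    have hQ : ∀ l ∈ Q, 0 ≤ x l ∧ x l ≤ 1 := fun l hl => h l (Finset.mem_insert_of_mem hl)
    obtain ⟨ha0, ha1⟩ := h a (Finset.mem_insert_self a Q)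
    have ih' := ih hQ
    rw [Finset.prod_insert ha]
    constructor
    · cases k with
      | zero =>
        rw [Nat.mul_zero, bonT_zero]
        have h1 : ∏ l ∈ Q, (1 - x l) ≤ 1 := by
          apply Finset.prod_le_one
          · intro l hl
            linarith [(hQ l hl).2]
          · intro l hl
            linarith [(hQ l hl).1]
        have h2 : 0 ≤ ∏ l ∈ Q, (1 - x l) := by
          apply Finset.prod_nonneg
          intro l hl
          linarith [(hQ l hl).2]
        nlinarith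
      | succ k =>
        have e : 2 * (k + 1) = (2 * k + 1) + 1 := by ring
        rw [e, bonT_insert x _ a Q ha]
        have h1 := (ih' (k + 1)).1
        rw [e] at h1
        have h2 := (ih' k).2
        nlinarith
    · rw [bonT_insert x _ a Q ha]
      have h1 := (ih' k).1
      have h2 := (ih' k).2
      nlinarith

theorem bon_pow (S x : ℝ) (hS : 0 ≤ S) (hx : 0 ≤ x) (j : ℕ) :
    S ^ (j + 1) + (j + 1) * x * S ^ j ≤ (S + x) ^ (j + 1) := by
  induction j with
  | zero => simp
  | succ j ih =>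
    have h1 : (S + x) ^ (j + 1 + 1) = (S + x) * (S + x) ^ (j + 1) := by ring
    rw [h1]
    have h2 := mul_le_mul_of_nonneg_left ih (add_nonneg hS hx)
    have h3 : 0 ≤ ((j : ℝ) + 1) * x ^ 2 * S ^ j := by positivity
    push_cast
    have h4 : (S + x) * (S ^ (j + 1) + (j + 1) * x * S ^ j) =
        S ^ (j + 1 + 1) + (((j : ℝ) + 1) + 1) * x * S ^ (j + 1) + ((j : ℝ) + 1) * x ^ 2 * S ^ j := by
      ring
    linarith

theorem bonE_le (x : ℕ → ℝ) (Q : Finset ℕ) : (∀ l ∈ Q, 0 ≤ x l) →
    ∀ j : ℕ, bonE x j Q ≤ (∑ l ∈ Q, x l) ^ j / (j.factorial : ℝ) := by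
  induction Q using Finset.induction_on with
  | empty =>
    intro _ j
    cases j with
    | zero => simp [bonE_zero]
    | succ j => simp [bonE_empty]
  | insert a Q ha ih =>
    intro h j
    have hQ : ∀ l ∈ Q, 0 ≤ x l := fun l hl => h l (Finset.mem_insert_of_mem hl)
    have ha0 := h a (Finset.mem_insert_self a Q)
    have ih' := ih hQ
    have hS : 0 ≤ ∑ l ∈ Q, x l := Finset.sum_nonneg hQ
    cases j with
    | zero => simp [bonE_zero]
    | succ j =>
      rw [bonE_insert x j a Q ha, Finset.sum_insert ha]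
      have h1 := ih' (j + 1)
      have h2 := mul_le_mul_of_nonneg_left (ih' j) ha0
      have hf : (0 : ℝ) < ((j + 1).factorial : ℝ) := by exact_mod_cast Nat.factorial_pos _
      have hf0 : (0 : ℝ) < (j.factorial : ℝ) := by exact_mod_cast Nat.factorial_pos _
      have h3 : x a * ((∑ l ∈ Q, x l) ^ j / (j.factorial : ℝ)) =
          ((j + 1) * x a * (∑ l ∈ Q, x l) ^ j) / ((j + 1).factorial : ℝ) := by
        rw [Nat.factorial_succ]
        push_cast
        have : ((j : ℝ) + 1) ≠ 0 := by positivity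
        field_simp
      have h4 := bon_pow (∑ l ∈ Q, x l) (x a) hS ha0 j
      calc bonE x (j + 1) Q + x a * bonE x j Q
          ≤ (∑ l ∈ Q, x l) ^ (j + 1) / ((j + 1).factorial : ℝ) +
            ((j + 1) * x a * (∑ l ∈ Q, x l) ^ j) / ((j + 1).factorial : ℝ) := by
            rw [← h3]
            linarith
        _ = ((∑ l ∈ Q, x l) ^ (j + 1) + (j + 1) * x a * (∑ l ∈ Q, x l) ^ j) /
            ((j + 1).factorial : ℝ) := by rw [add_div]
        _ ≤ (∑ l ∈ Q, x l + x a) ^ (j + 1) / ((j + 1).factorial : ℝ) :=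
            div_le_div_of_nonneg_right h4 hf.le
        _ = (x a + ∑ l ∈ Q, x l) ^ (j + 1) / ((j + 1).factorial : ℝ) := by rw [add_comm (x a)]

theorem st_BON : ST_BON := by
  intro Q x k h
  have e : ∑ D ∈ Q.powerset.filter (fun D => D.card ≤ 2 * k), (-1) ^ D.card * ∏ l ∈ D, x l =
      bonT x (2 * k) Q := by
    unfold bonT
    rw [Finset.sum_filter]
  have h1 := bon_main x Q h k
  have h2 := bonT_succ x (2 * k) Q
  have h3 := bonE_le x Q (fun l hl => (h l hl).1) (2 * k + 1)
  have h4 : (-1 : ℝ) ^ (2 * k + 1) = -1 := Odd.neg_one_pow ⟨k, rfl⟩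
  rw [h4] at h2
  constructor
  · rw [e]
    exact h1.1
  · rw [e]
    linarith [h1.2]

end Pool.Agent.Helper56.CP
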