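import Pool.Agent.Helper56.CP.Stmts

set_option autoImplicit false

open Finset Filter Topology

namespace Pool.Agent.Helper56.CP

theorem bru_count (Q : Finset ℕ) (s K : ℕ) :
    ∑ D ∈ Q.powerset.filter (fun D => D.card ≤ K), (s : ℝ) ^ D.card ≤
      (1 + (s : ℝ) * Q.card) ^ K := by
  have h1 : Q.powerset.filter (fun D => D.card ≤ K) =
      (range (K + 1)).biUnion (fun j => powersetCard j Q) := by
    ext D
    simp only [mem_filter, mem_powerset, mem_biUnion, mem_range, mem_powersetCard]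
    constructor
    · rintro ⟨a, b⟩
      exact ⟨D.card, by omega, a, rfl⟩
    · rintro ⟨j, hj, a, b⟩
      exact ⟨a, by omega⟩
  rw [h1, Finset.sum_biUnion]
  · have h2 : ∀ j ∈ range (K + 1), ∑ D ∈ powersetCard j Q, (s : ℝ) ^ D.card ≤
        ((s : ℝ) * Q.card) ^ j * 1 ^ (K - j) * (K.choose j : ℝ) := by
      intro j hj
      have hjK : j ≤ K := Nat.lt_succ_iff.mp (mem_range.mp hj)
      have h3 : ∑ D ∈ powersetCard j Q, (s : ℝ) ^ D.card = (Q.card.choose j : ℝ) * (s : ℝ) ^ j := by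
        rw [Finset.sum_congr rfl (fun D hD => by rw [(mem_powersetCard.mp hD).2]),
          Finset.sum_const, card_powersetCard, nsmul_eq_mul]
      rw [h3, one_pow, mul_one]
      have h4 : (Q.card.choose j : ℝ) ≤ (Q.card : ℝ) ^ j := by
        exact_mod_cast Nat.choose_le_pow Q.card j
      have h5 : (1 : ℝ) ≤ (K.choose j : ℝ) := by
        exact_mod_cast Nat.choose_pos hjK
      have h6 : (Q.card.choose j : ℝ) * (s : ℝ) ^ j ≤ ((s : ℝ) * Q.card) ^ j := by
        rw [mul_pow, mul_comm ((s : ℝ) ^ j)]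
        exact mul_le_mul_of_nonneg_right h4 (by positivity)
      have h7 : (0 : ℝ) ≤ ((s : ℝ) * Q.card) ^ j := by positivity
      nlinarith
    calc _ ≤ ∑ j ∈ range (K + 1), ((s : ℝ) * Q.card) ^ j * 1 ^ (K - j) * (K.choose j : ℝ) :=
          Finset.sum_le_sum h2
      _ = ((s : ℝ) * Q.card + 1) ^ K := (add_pow _ _ _).symm
      _ = (1 + (s : ℝ) * Q.card) ^ K := by rw [add_comm]
  · intro i _ j _ hij
    exact (Finset.pairwise_disjoint_powersetCard Q) hij

theorem st_BRU (h_BON : ST_BON) (h_CRT : ST_CRT) : ST_BRU := by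
  classical
  intro Q W s X k hQ hW
  set x : ℕ → ℕ → ℝ := fun n l => if n % l ∈ W l then 1 else 0 with hx
  have hx01 : ∀ n l, 0 ≤ x n l ∧ x n l ≤ 1 := by
    intro n l
    simp only [hx]
    split_ifs <;> norm_num
  set F := Q.powerset.filter (fun D => D.card ≤ 2 * k) with hF
  have hind : ∀ n : ℕ, (if ∀ l ∈ Q, n % l ∉ W l then (1 : ℝ) else 0) = ∏ l ∈ Q, (1 - x n l) := by
    intro n
    split_ifs with h
    · symm
      apply Finset.prod_eq_one
      intro l hl
      simp only [hx]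
      rw [if_neg (h l hl)]
      norm_num
    · push Not at h
      obtain ⟨l, hl, hl2⟩ := h
      symm
      apply Finset.prod_eq_zero hl
      simp only [hx]
      rw [if_pos hl2]
      norm_num
  have hprod : ∀ (D : Finset ℕ) (n : ℕ),
      (if ∀ l ∈ D, n % l ∈ W l then (1 : ℝ) else 0) = ∏ l ∈ D, x n l := by
    intro D n
    split_ifs with h
    · symm
      apply Finset.prod_eq_one
      intro l hl
      simp only [hx]
      rw [if_pos (h l hl)]
    · push Not at h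
      obtain ⟨l, hl, hl2⟩ := h
      symm
      apply Finset.prod_eq_zero hl
      simp only [hx]
      rw [if_neg hl2]
  have hcard : (((range X).filter (fun n => ∀ l ∈ Q, n % l ∉ W l)).card : ℝ) =
      ∑ n ∈ range X, ∏ l ∈ Q, (1 - x n l) := by
    rw [Finset.card_filter]
    push_cast
    exact Finset.sum_congr rfl (fun n _ => hind n)
  have hN : ∀ D : Finset ℕ, (((range X).filter (fun n => ∀ l ∈ D, n % l ∈ W l)).card : ℝ) =
      ∑ n ∈ range X, ∏ l ∈ D, x n l := by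
    intro D
    rw [Finset.card_filter]
    push_cast
    exact Finset.sum_congr rfl (fun n _ => hprod D n)
  have h1 : ∑ n ∈ range X, ∏ l ∈ Q, (1 - x n l) ≤
      ∑ D ∈ F, (-1) ^ D.card * ∑ n ∈ range X, ∏ l ∈ D, x n l := by
    calc _ ≤ ∑ n ∈ range X, ∑ D ∈ F, (-1) ^ D.card * ∏ l ∈ D, x n l :=
          Finset.sum_le_sum (fun n _ => (h_BON Q (x n) k (fun l _ => hx01 n l)).1)
      _ = ∑ D ∈ F, ∑ n ∈ range X, (-1) ^ D.card * ∏ l ∈ D, x n l := Finset.sum_comm
      _ = _ := Finset.sum_congr rfl (fun D _ => (Finset.mul_sum _ _ _).symm)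
  have h2 : ∀ D ∈ F, (-1 : ℝ) ^ D.card * ∑ n ∈ range X, ∏ l ∈ D, x n l ≤
      X * ((-1) ^ D.card * ∏ l ∈ D, ((s : ℝ) / l)) + (s : ℝ) ^ D.card := by
    intro D hD
    have hDQ : D ⊆ Q := mem_powerset.mp (mem_filter.mp hD).1
    have hc := h_CRT D W s X (fun l hl => hQ l (hDQ hl)) (fun l hl => hW l (hDQ hl))
    rw [hN D] at hc
    have hsgn : (-1 : ℝ) ^ D.card * (∑ n ∈ range X, ∏ l ∈ D, x n l - X * ∏ l ∈ D, ((s : ℝ) / l)) ≤
        (s : ℝ) ^ D.card := by
      calc _ ≤ |(-1 : ℝ) ^ D.card * (∑ n ∈ range X, ∏ l ∈ D, x n l - X * ∏ l ∈ D, ((s : ℝ) / l))| :=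
            le_abs_self _
        _ = |∑ n ∈ range X, ∏ l ∈ D, x n l - X * ∏ l ∈ D, ((s : ℝ) / l)| := by
            rw [abs_mul, abs_pow, abs_neg, abs_one, one_pow, one_mul]
        _ ≤ _ := hc
    have : (-1 : ℝ) ^ D.card * (∑ n ∈ range X, ∏ l ∈ D, x n l - X * ∏ l ∈ D, ((s : ℝ) / l)) =
        (-1 : ℝ) ^ D.card * ∑ n ∈ range X, ∏ l ∈ D, x n l -
          X * ((-1) ^ D.card * ∏ l ∈ D, ((s : ℝ) / l)) := by ring
    linarith
  have h3 : ∑ D ∈ F, (-1 : ℝ) ^ D.card * ∑ n ∈ range X, ∏ l ∈ D, x n l ≤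
      X * ∑ D ∈ F, ((-1) ^ D.card * ∏ l ∈ D, ((s : ℝ) / l)) + ∑ D ∈ F, (s : ℝ) ^ D.card := by
    calc _ ≤ ∑ D ∈ F, (X * ((-1) ^ D.card * ∏ l ∈ D, ((s : ℝ) / l)) + (s : ℝ) ^ D.card) :=
          Finset.sum_le_sum h2
      _ = _ := by rw [Finset.sum_add_distrib, Finset.mul_sum]
  have h4 := (h_BON Q (fun l => (s : ℝ) / l) k (by
    intro l hl
    have hl2 : 2 ≤ l := (hQ l hl).two_le
    have hsl : s ≤ l := by
      have := Finset.card_le_card (hW l hl).1
      rw [card_range, (hW l hl).2] at this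
      exact this
    have hl0 : (0 : ℝ) < (l : ℝ) := by
      have : 0 < l := by omega
      exact_mod_cast this
    refine ⟨by positivity, ?_⟩
    rw [div_le_one hl0]
    exact_mod_cast hsl)).2
  have h5 := bru_count Q s (2 * k)
  rw [hcard]
  have h6 := mul_le_mul_of_nonneg_left h4 (Nat.cast_nonneg (α := ℝ) X)
  linarith

end Pool.Agent.Helper56.CP
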