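import Pool.Agent.Helper56.CP.Stmts

set_option autoImplicit false

open Finset Filter Topology

namespace Pool.Agent.Helper56.CP

theorem c2_fac {l : ℕ} (h : 3 ≤ l) : 0 ≤ 1 - 1 / ((l : ℝ) - 1) ^ 2 ∧ 1 - 1 / ((l : ℝ) - 1) ^ 2 ≤ 1 := by
  have h3 : (3 : ℝ) ≤ (l : ℝ) := by exact_mod_cast h
  have h4 : (1 : ℝ) ≤ ((l : ℝ) - 1) ^ 2 := by nlinarith
  have h5 : 1 / ((l : ℝ) - 1) ^ 2 ≤ 1 := by
    rw [div_le_one (by linarith)]
    exact h4
  have h6 : 0 ≤ 1 / ((l : ℝ) - 1) ^ 2 := by positivity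
  constructor <;> linarith

theorem c2_sub {A B : Finset ℕ} (hAB : A ⊆ B) (hB : ∀ l ∈ B, 3 ≤ l) :
    ∏ l ∈ B, (1 - 1 / ((l : ℝ) - 1) ^ 2) ≤ ∏ l ∈ A, (1 - 1 / ((l : ℝ) - 1) ^ 2) := by
  rw [← Finset.prod_sdiff hAB]
  have h1 : ∏ l ∈ B \ A, (1 - 1 / ((l : ℝ) - 1) ^ 2) ≤ 1 := by
    apply Finset.prod_le_one
    · intro l hl
      exact (c2_fac (hB l (mem_sdiff.mp hl).1)).1
    · intro l hl
      exact (c2_fac (hB l (mem_sdiff.mp hl).1)).2
  have h2 : 0 ≤ ∏ l ∈ A, (1 - 1 / ((l : ℝ) - 1) ^ 2) := by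
    apply Finset.prod_nonneg
    intro l hl
    exact (c2_fac (hB l (hAB hl))).1
  nlinarith

theorem c2_icc (n : ℕ) (hn : 2 ≤ n) :
    ∏ l ∈ Finset.Icc 3 n, (1 - 1 / ((l : ℝ) - 1) ^ 2) = (n : ℝ) / (2 * ((n : ℝ) - 1)) := by
  induction n, hn using Nat.le_induction with
  | base =>
    rw [Finset.Icc_eq_empty (by norm_num), Finset.prod_empty]
    norm_num
  | succ n hn ih =>
    rw [Finset.prod_Icc_succ_top (by omega), ih]
    have h2 : (2 : ℝ) ≤ (n : ℝ) := by exact_mod_cast hn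
    have h3 : (n : ℝ) - 1 ≠ 0 := by linarith
    have h4 : (n : ℝ) ≠ 0 := by linarith
    push_cast
    have h5 : (n : ℝ) + 1 - 1 = n := by ring
    rw [h5]
    field_simp
    ring

theorem c2_half (n : ℕ) : 1 / 2 ≤ tw n := by
  have h3 : ∀ m : ℕ, 2 ≤ m → 1 / 2 ≤ tw m := by
    intro m hm
    have h1 : ∏ l ∈ Finset.Icc 3 m, (1 - 1 / ((l : ℝ) - 1) ^ 2) ≤ tw m := by
      unfold tw OP
      exact c2_sub (Finset.filter_subset _ _) (fun l hl => (mem_Icc.mp hl).1)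
    rw [c2_icc m hm] at h1
    have h2 : (2 : ℝ) ≤ (m : ℝ) := by exact_mod_cast hm
    have h4 : (1 : ℝ) / 2 ≤ (m : ℝ) / (2 * ((m : ℝ) - 1)) := by
      rw [div_le_div_iff₀ (by norm_num) (by linarith)]
      linarith
    linarith
  rcases le_or_gt 2 n with h | h
  · exact h3 n h
  · have : tw n = 1 := by
      unfold tw OP
      rw [Finset.Icc_eq_empty (by omega), Finset.filter_empty, Finset.prod_empty]
    rw [this]
    norm_num

theorem c2_anti : Antitone tw := by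
  intro m n hmn
  unfold tw
  apply c2_sub
  · intro l hl
    have h := mem_filter.mp hl
    have h' := mem_Icc.mp h.1
    exact mem_filter.mpr ⟨mem_Icc.mpr ⟨h'.1, le_trans h'.2 hmn⟩, h.2⟩
  · intro l hl
    exact (mem_Icc.mp (mem_filter.mp hl).1).1

theorem st_C2 : ST_C2 := by
  have hb : BddBelow (Set.range tw) := ⟨1 / 2, by
    rintro _ ⟨n, rfl⟩
    exact c2_half n⟩
  refine ⟨le_ciInf c2_half, tendsto_atTop_ciInf c2_anti hb, fun n => ciInf_le hb n⟩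

end Pool.Agent.Helper56.CP
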