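import Pool.Agent.Helper56.CP.Stmts

set_option autoImplicit false

open Finset Filter Topology

namespace Pool.Agent.Helper56.CP

theorem clu_cw_nonneg (w : ℕ) : 0 ≤ cw w := by
  unfold cw
  apply Finset.prod_nonneg
  intro l hl
  have h3 : 3 ≤ l := (Finset.mem_Icc.mp (Finset.mem_filter.mp hl).1).1
  have h3' : (3 : ℝ) ≤ (l : ℝ) := by exact_mod_cast h3
  have h4 : 1 / ((l : ℝ) - 1) ≤ 1 := by
    rw [div_le_one (by linarith)]
    linarith
  linarith

theorem clu_dvd (a r l : ℕ) (har : a ≤ r) (h : a % l = r % l) : l ∣ r - a :=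
  (Nat.modEq_iff_dvd' har).mp h

theorem st_CLU (h_GRD : ST_GRD) : ST_CLU := by
  intro p w z N R hClu hw hwz hN hR hRz
  by_contra hcon
  have hcard : (Ap p R).card ≤ N := Nat.le_of_not_lt hcon
  obtain ⟨hpp, hpodd, hclu⟩ := hClu
  have hA : ∀ a ∈ Ap p R, a ≤ R ∧ (p - a).Prime := by
    intro a ha
    have h := Finset.mem_filter.mp ha
    exact ⟨Nat.lt_succ_iff.mp (Finset.mem_range.mp h.1), h.2⟩
  have hOP : ∀ l ∈ OP z, 3 ≤ l ∧ l ≤ z ∧ l.Prime := by
    intro l hl
    have h := Finset.mem_filter.mp hl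
    exact ⟨(Finset.mem_Icc.mp h.1).1, (Finset.mem_Icc.mp h.1).2, h.2⟩
  have hav : ∀ l ∈ OP z, ∀ a ∈ Ap p R, a % l ≠ p % l := by
    intro l hl a ha heq
    obtain ⟨h3, hlz, hlp⟩ := hOP l hl
    obtain ⟨haR, hap⟩ := hA a ha
    have hd : l ∣ p - a := clu_dvd a p l (by omega) heq
    rcases (Nat.dvd_prime hap).mp hd with h | h
    · omega
    · omega
  have hcard' : ((Ap p R).card : ℝ) * cw w ≤ ((OP z).card : ℝ) - (OP w).card := by
    have h1 : ((Ap p R).card : ℝ) ≤ (N : ℝ) := by exact_mod_cast hcard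
    have h2 := mul_le_mul_of_nonneg_right h1 (clu_cw_nonneg w)
    linarith
  obtain ⟨r₀, hr₀, hcov⟩ := h_GRD w z (Ap p R) p hw hwz hav hcard'
  set M := primorial z with hM
  have hMpos : 0 < M := primorial_pos z
  have hdvd : ∀ l : ℕ, l.Prime → l ≤ z → l ∣ M := by
    intro l hl hlz
    rw [hM]
    exact Finset.dvd_prod_of_mem _ (Finset.mem_filter.mpr ⟨Finset.mem_range.mpr (by omega), hl⟩)
  have h2M : 2 ∣ M := hdvd 2 Nat.prime_two (by omega)
  have hM2 : 2 ≤ M := Nat.le_of_dvd hMpos h2M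
  have hodd0 : (r₀ % M) % 2 = 1 := by
    rw [Nat.mod_mod_of_dvd _ h2M]
    exact Nat.odd_iff.mp hr₀
  have hltM : r₀ % M < M := Nat.mod_lt _ hMpos
  have hrl : ∀ j : ℕ, ∀ l : ℕ, l ∣ M → (r₀ % M + j * M) % l = r₀ % l := by
    intro j l hl
    obtain ⟨c, hc⟩ := hl
    have h1 : r₀ % M + j * M = r₀ % M + l * (j * c) := by
      rw [hc]
      ring
    rw [h1, Nat.add_mul_mod_self_left]
    exact Nat.mod_mod_of_dvd _ ⟨c, hc⟩
  have hgood : ∃ j ∈ Finset.Icc 1 ((Ap p R).card + 1), ∀ a ∈ Ap p R,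
      a < r₀ % M + j * M → ¬ (r₀ % M + j * M - a).Prime := by
    by_contra hno
    push Not at hno
    have hch : ∀ j : ℕ, ∃ a : ℕ, j ∈ Finset.Icc 1 ((Ap p R).card + 1) →
        a ∈ Ap p R ∧ a < r₀ % M + j * M ∧ (r₀ % M + j * M - a).Prime := by
      intro j
      by_cases hj : j ∈ Finset.Icc 1 ((Ap p R).card + 1)
      · obtain ⟨a, h1, h2, h3⟩ := hno j hj
        exact ⟨a, fun _ => ⟨h1, h2, h3⟩⟩
      · exact ⟨0, fun h => absurd h hj⟩
    choose f hf using hch
    have hle : (Finset.Icc 1 ((Ap p R).card + 1)).card ≤ (Ap p R).card := by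
      apply Finset.card_le_card_of_injOn f
      · intro j hj
        exact (hf j hj).1
      · intro i hi j hj hij
        obtain ⟨hi1, hi2, hi3⟩ := hf i hi
        obtain ⟨hj1, hj2, hj3⟩ := hf j hj
        obtain ⟨l, hl, hal⟩ := hcov (f i) hi1
        obtain ⟨hl3, hlz, hlp⟩ := hOP l hl
        have hlM : l ∣ M := hdvd l hlp hlz
        have e1 : l ∣ r₀ % M + i * M - f i := clu_dvd _ _ l hi2.le (by rw [hrl i l hlM]; exact hal)
        have e2 : l ∣ r₀ % M + j * M - f j := clu_dvd _ _ l hj2.le (by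
          rw [hrl j l hlM, ← hij]; exact hal)
        have e3 : l = r₀ % M + i * M - f i := by
          rcases (Nat.dvd_prime hi3).mp e1 with h | h
          · omega
          · exact h
        have e4 : l = r₀ % M + j * M - f j := by
          rcases (Nat.dvd_prime hj3).mp e2 with h | h
          · omega
          · exact h
        have e5 : i * M = j * M := by omega
        exact Nat.eq_of_mul_eq_mul_right hMpos e5
    rw [Nat.card_Icc] at hle
    omega
  obtain ⟨j, hj, hjg⟩ := hgood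
  have hj1 : 1 ≤ j := (Finset.mem_Icc.mp hj).1
  have hj2 : j ≤ (Ap p R).card + 1 := (Finset.mem_Icc.mp hj).2
  have hjM : M ≤ j * M := Nat.le_mul_of_pos_left M hj1
  have hjR : r₀ % M + j * M ≤ R := by
    have h1 : j * M ≤ (N + 1) * M := Nat.mul_le_mul_right M (by omega)
    have h2 : (N + 2) * M = (N + 1) * M + M := by ring
    omega
  have hrodd : (r₀ % M + j * M) % 2 = 1 := by
    have := hrl j 2 h2M
    rw [this]
    exact Nat.odd_iff.mp hr₀
  have hr3 : 3 ≤ r₀ % M + j * M := by omega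
  have hpo : p % 2 = 1 := Nat.odd_iff.mp hpodd
  generalize hrdef : r₀ % M + j * M = r at *
  obtain ⟨q, s, hq, hs, hqp, hsp, hqs⟩ := hclu (p - r) (by rw [Nat.even_iff]; omega) (by omega)
    (by omega)
  have hs2 : 2 ≤ s := hs.two_le
  have hmem : p - q ∈ Ap p R := by
    refine Finset.mem_filter.mpr ⟨Finset.mem_range.mpr (by omega), ?_⟩
    have : p - (p - q) = q := by omega
    rw [this]
    exact hq
  have hlt : p - q < r := by omega
  have := hjg (p - q) hmem hlt
  apply this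
  have e : r - (p - q) = s := by omega
  rw [e]
  exact hs

end Pool.Agent.Helper56.CP
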