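import Pool.Agent.Helper56.CP.Stmts

set_option autoImplicit false

open Finset Filter Topology

namespace Pool.Agent.Helper56.CP

theorem crt_full (W : ℕ → Finset ℕ) (s : ℕ) (D : Finset ℕ) : (∀ l ∈ D, l.Prime) →
    (∀ l ∈ D, W l ⊆ range l ∧ (W l).card = s) →
    ((range (∏ l ∈ D, l)).filter (fun n => ∀ l ∈ D, n % l ∈ W l)).card = s ^ D.card := by
  classical
  induction D using Finset.induction_on with
  | empty =>
    intro _ _
    simp
  | insert a D ha ih =>
    intro hp hW
    have hpD : ∀ l ∈ D, l.Prime := fun l hl => hp l (mem_insert_of_mem hl)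
    have hWD : ∀ l ∈ D, W l ⊆ range l ∧ (W l).card = s := fun l hl => hW l (mem_insert_of_mem hl)
    have ih' := ih hpD hWD
    have hpa : a.Prime := hp a (mem_insert_self a D)
    obtain ⟨hWa, hWa2⟩ := hW a (mem_insert_self a D)
    set M := ∏ l ∈ D, l with hM
    have hM0 : M ≠ 0 := by
      rw [hM, Finset.prod_ne_zero_iff]
      intro l hl
      exact (hpD l hl).ne_zero
    have hco : a.Coprime M := by
      rw [hM]
      apply Nat.Coprime.prod_right
      intro l hl
      rw [Nat.coprime_primes hpa (hpD l hl)]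
      intro h
      exact ha (h ▸ hl)
    have hdM : ∀ l ∈ D, l ∣ M := fun l hl => Finset.dvd_prod_of_mem _ hl
    rw [Finset.prod_insert ha, Finset.card_insert_of_notMem ha, pow_succ, mul_comm (s ^ D.card), ← ih',
      ← hWa2, ← Finset.card_product]
    apply Finset.card_bij (fun n _ => (n % a, n % M))
    · intro n hn
      obtain ⟨h1, h2⟩ := mem_filter.mp hn
      refine mem_product.mpr ⟨h2 a (mem_insert_self a D), mem_filter.mpr ⟨?_, ?_⟩⟩
      · exact mem_range.mpr (Nat.mod_lt _ (Nat.pos_of_ne_zero hM0))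
      · intro l hl
        show n % M % l ∈ W l
        rw [Nat.mod_mod_of_dvd _ (hdM l hl)]
        exact h2 l (mem_insert_of_mem hl)
    · intro n hn m hm hnm
      have h1 : n ≡ m [MOD a] := (Prod.mk.inj hnm).1
      have h2 : n ≡ m [MOD M] := (Prod.mk.inj hnm).2
      have h3 : n ≡ m [MOD a * M] := (Nat.modEq_and_modEq_iff_modEq_mul hco).mp ⟨h1, h2⟩
      exact Nat.ModEq.eq_of_lt_of_lt h3 (mem_range.mp (mem_filter.mp hn).1)
        (mem_range.mp (mem_filter.mp hm).1)
    · rintro ⟨u, v⟩ huv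
      obtain ⟨hu, hv⟩ := mem_product.mp huv
      obtain ⟨hv1, hv2⟩ := mem_filter.mp hv
      have hu' : u < a := mem_range.mp (hWa hu)
      have hv' : v < M := mem_range.mp hv1
      have hk := (Nat.chineseRemainder hco u v).2
      have hlt := Nat.chineseRemainder_lt_mul hco u v hpa.ne_zero hM0
      set k : ℕ := (Nat.chineseRemainder hco u v : ℕ) with hkdef
      have e1 : k % a = u := by
        have := hk.1
        unfold Nat.ModEq at this
        rw [this, Nat.mod_eq_of_lt hu']
      have e2 : k % M = v := by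
        have := hk.2
        unfold Nat.ModEq at this
        rw [this, Nat.mod_eq_of_lt hv']
      refine ⟨k, mem_filter.mpr ⟨mem_range.mpr hlt, ?_⟩, by rw [e1, e2]⟩
      intro l hl
      rcases mem_insert.mp hl with h | h
      · rw [h, e1]
        exact hu
      · rw [← Nat.mod_mod_of_dvd _ (hdM l h), e2]
        exact hv2 l h

theorem st_CRT : ST_CRT := by
  classical
  intro D W s X hp hW
  have hfull := crt_full W s D hp hW
  set M := ∏ l ∈ D, l with hM
  have hM0 : M ≠ 0 := by
    rw [hM, Finset.prod_ne_zero_iff]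
    intro l hl
    exact (hp l hl).ne_zero
  have hMpos : 0 < M := Nat.pos_of_ne_zero hM0
  have hdM : ∀ l ∈ D, l ∣ M := fun l hl => Finset.dvd_prod_of_mem _ hl
  set G := (range M).filter (fun n => ∀ l ∈ D, n % l ∈ W l) with hG
  set A := (range X).filter (fun n => ∀ l ∈ D, n % l ∈ W l) with hA
  have hmaps : (A : Set ℕ).MapsTo (fun n => n % M) G := by
    intro n hn
    obtain ⟨h1, h2⟩ := mem_filter.mp (Finset.mem_coe.mp hn)
    refine Finset.mem_coe.mpr (mem_filter.mpr ⟨mem_range.mpr (Nat.mod_lt _ hMpos), ?_⟩)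
    intro l hl
    rw [Nat.mod_mod_of_dvd _ (hdM l hl)]
    exact h2 l hl
  have hsum := Finset.card_eq_sum_card_fiberwise hmaps
  have hfib : ∀ c ∈ G, |((A.filter (fun n => n % M = c)).card : ℝ) - (X : ℝ) / M| ≤ 1 := by
    intro c hc
    obtain ⟨hc1, hc2⟩ := mem_filter.mp hc
    have hcM : c < M := mem_range.mp hc1
    have e : A.filter (fun n => n % M = c) = (range X).filter (fun n => n ≡ c [MOD M]) := by
      ext n
      simp only [hA, mem_filter]
      unfold Nat.ModEq
      rw [Nat.mod_eq_of_lt hcM]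
      constructor
      · rintro ⟨⟨h1, _⟩, h3⟩
        exact ⟨h1, h3⟩
      · rintro ⟨h1, h3⟩
        refine ⟨⟨h1, ?_⟩, h3⟩
        intro l hl
        rw [← Nat.mod_mod_of_dvd _ (hdM l hl), h3]
        exact hc2 l hl
    rw [e, ← Nat.count_eq_card_filter_range, Nat.count_modEq_card X hMpos c]
    have h1 : (X : ℝ) / M - 1 ≤ ((X / M : ℕ) : ℝ) := by
      have := Nat.lt_floor_add_one ((X : ℝ) / M)
      rw [Nat.floor_div_natCast, Nat.floor_natCast] at this
      linarith
    have h2 : ((X / M : ℕ) : ℝ) ≤ (X : ℝ) / M := Nat.cast_div_le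
    have h3 : (X : ℝ) / M ≤ ((X / M : ℕ) : ℝ) + 1 := by linarith
    have hMr : (0 : ℝ) < (M : ℝ) := by exact_mod_cast hMpos
    split_ifs with h
    · rw [abs_le]
      push_cast
      constructor <;> linarith
    · rw [abs_le]
      push_cast
      constructor <;> linarith
  have hprod : (X : ℝ) * ∏ l ∈ D, ((s : ℝ) / l) = ∑ c ∈ G, (X : ℝ) / M := by
    rw [Finset.sum_const, hfull, nsmul_eq_mul, Finset.prod_div_distrib, Finset.prod_const, hM]
    push_cast
    ring
  rw [hprod, hsum]
  push_cast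
  rw [← Finset.sum_sub_distrib]
  calc |∑ c ∈ G, (((A.filter (fun n => n % M = c)).card : ℝ) - (X : ℝ) / M)|
      ≤ ∑ c ∈ G, |((A.filter (fun n => n % M = c)).card : ℝ) - (X : ℝ) / M| :=
        Finset.abs_sum_le_sum_abs _ _
    _ ≤ ∑ c ∈ G, (1 : ℝ) := Finset.sum_le_sum hfib
    _ = (s : ℝ) ^ D.card := by
        rw [Finset.sum_const, hfull, nsmul_eq_mul, mul_one]
        push_cast
        rfl

end Pool.Agent.Helper56.CP
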