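import Pool.Agent.Helper56.CP.Stmts

set_option autoImplicit false

open Finset Filter Topology

namespace Pool.Agent.Helper56.CP

theorem sc_mem {S : Finset ℕ} {y0 y l : ℕ} (h : l ∈ SQ S y0 y) :
    l ≤ y ∧ l.Prime ∧ y0 < l ∧ ∀ a ∈ S, ∀ b ∈ S, a ≠ b → a % l ≠ b % l := by
  unfold SQ at h
  have h1 := Finset.mem_filter.mp h
  have h2 := Finset.mem_filter.mp h1.1
  exact ⟨Nat.lt_succ_iff.mp (Finset.mem_range.mp h2.1), h2.2, h1.2.1, h1.2.2⟩

theorem st_SC (h_BRU : ST_BRU) : ST_SC := by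
  classical
  intro S y0 y x k H hne hcard hH
  obtain ⟨a₀, ha₀⟩ := hne
  have hH0 : 0 ≤ H := le_trans (Nat.cast_nonneg a₀) (hH a₀ ha₀)
  set Q := SQ S y0 y with hQ
  set W : ℕ → Finset ℕ := fun l => S.image (fun a => a % l) with hWdef
  set s := S.card with hs
  set σ : ℝ := ∑ l ∈ Q, 1 / (l : ℝ) with hσ
  have hW : ∀ l ∈ Q, W l ⊆ range l ∧ (W l).card = s := by
    intro l hl
    obtain ⟨h1, h2, h3, h4⟩ := sc_mem hl
    constructor
    · intro b hb
      obtain ⟨a, _, rfl⟩ := Finset.mem_image.mp hb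
      exact Finset.mem_range.mpr (Nat.mod_lt _ h2.pos)
    · apply Finset.card_image_of_injOn
      intro a ha b hb hab
      by_contra hne
      exact h4 a ha b hb hne hab
  have hB := h_BRU Q W s (x + 1) k (fun l hl => (sc_mem hl).2.1) hW
  set A1 := range (⌊(y : ℝ) + H⌋₊ + 1) with hA1
  set A2 := (range (x + 1)).filter (fun n => ∀ l ∈ Q, n % l ∉ W l) with hA2
  have hsub : (range (x + 1)).filter (fun n => ∀ a ∈ S, (n - a).Prime) ⊆ A1 ∪ A2 := by
    intro n hn
    obtain ⟨hn1, hn2⟩ := Finset.mem_filter.mp hn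
    by_cases hc : ∃ a ∈ S, n - a ≤ y
    · obtain ⟨a, ha, hay⟩ := hc
      apply Finset.mem_union_left
      rw [hA1, Finset.mem_range, Nat.lt_succ_iff]
      apply Nat.le_floor
      have h1 : n ≤ y + a := by omega
      have h2 : (n : ℝ) ≤ (y : ℝ) + (a : ℝ) := by exact_mod_cast h1
      have h3 := hH a ha
      linarith
    · push Not at hc
      apply Finset.mem_union_right
      refine Finset.mem_filter.mpr ⟨hn1, ?_⟩
      intro l hl hmem
      obtain ⟨h1, h2, h3, h4⟩ := sc_mem hl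
      obtain ⟨a, ha, hal⟩ := Finset.mem_image.mp hmem
      have hya := hc a ha
      have hd : l ∣ n - a := (Nat.modEq_iff_dvd' (by omega)).mp hal
      rcases (Nat.dvd_prime (hn2 a ha)).mp hd with h | h
      · exact h2.one_lt.ne' h
      · omega
  have hc1 : (((range (x + 1)).filter (fun n => ∀ a ∈ S, (n - a).Prime)).card : ℝ) ≤
      (A1.card : ℝ) + (A2.card : ℝ) := by
    have := (Finset.card_le_card hsub).trans (Finset.card_union_le A1 A2)
    exact_mod_cast this
  have hc2 : (A1.card : ℝ) ≤ (y : ℝ) + H + 1 := by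
    rw [hA1, Finset.card_range]
    push_cast
    have := Nat.floor_le (show (0 : ℝ) ≤ (y : ℝ) + H by positivity)
    linarith
  have hsum : ∑ l ∈ Q, (s : ℝ) / l = (s : ℝ) * σ := by
    rw [hσ, Finset.mul_sum]
    apply Finset.sum_congr rfl
    intro l _
    rw [mul_one_div]
  have hprod : ∏ l ∈ Q, (1 - (s : ℝ) / l) ≤ Real.exp (-((s : ℝ) * σ)) := by
    calc ∏ l ∈ Q, (1 - (s : ℝ) / l) ≤ ∏ l ∈ Q, Real.exp (-((s : ℝ) / l)) := by
          apply Finset.prod_le_prod
          · intro l hl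
            obtain ⟨h1, h2, h3, h4⟩ := sc_mem hl
            have hl0 : (0 : ℝ) < (l : ℝ) := by exact_mod_cast h2.pos
            have hsl : (s : ℝ) / l ≤ 1 := by
              rw [div_le_one hl0]
              have : s ≤ l := by omega
              exact_mod_cast this
            linarith
          · intro l _
            have := Real.add_one_le_exp (-((s : ℝ) / l))
            linarith
      _ = Real.exp (-((s : ℝ) * σ)) := by
          rw [← Real.exp_sum, Finset.sum_neg_distrib, hsum]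
  have hQy : Q.card ≤ y := by
    have : Q ⊆ Finset.Icc 1 y := by
      intro l hl
      obtain ⟨h1, h2, h3, h4⟩ := sc_mem hl
      exact Finset.mem_Icc.mpr ⟨h2.pos, h1⟩
    have h := Finset.card_le_card this
    rwa [Nat.card_Icc, Nat.add_sub_cancel] at h
  have hpow : (1 + (s : ℝ) * Q.card) ^ (2 * k) ≤ (1 + (s : ℝ) * y) ^ (2 * k) := by
    apply pow_le_pow_left₀ (by positivity)
    have : (Q.card : ℝ) ≤ (y : ℝ) := by exact_mod_cast hQy
    have := mul_le_mul_of_nonneg_left this (Nat.cast_nonneg (α := ℝ) s)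
    linarith
  rw [hsum] at hB
  push_cast at hB
  have hx1 : (0 : ℝ) ≤ (x : ℝ) + 1 := by positivity
  have h9 := mul_le_mul_of_nonneg_left hprod hx1
  have h10 : ((x : ℝ) + 1) * (∏ l ∈ Q, (1 - (s : ℝ) / l) +
      ((s : ℝ) * σ) ^ (2 * k + 1) / ((2 * k + 1).factorial : ℝ)) ≤
      ((x : ℝ) + 1) * (Real.exp (-((s : ℝ) * σ)) +
      ((s : ℝ) * σ) ^ (2 * k + 1) / ((2 * k + 1).factorial : ℝ)) := by
    rw [mul_add, mul_add]
    linarith
  linarith

end Pool.Agent.Helper56.CP
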